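import Mathlib
import Pool.Agent.H71.Lie6

namespace Pool.Agent.Results.MP_dc204c_gt.ZmZ

open TopologicalSpace
open scoped Manifold ContDiff

theorem result (G : Type) [Group G] [TopologicalSpace G] [IsTopologicalGroup G] [T2Space G]
    (hpseudo : ∀ f : G → ℝ, Continuous f → ∃ C : ℝ, ∀ x, |f x| ≤ C)
    (hminimal : ∀ (H : Type) [Group H] [TopologicalSpace H] [IsTopologicalGroup H] [T2Space H]
      (f : G ≃* H), Continuous f → Continuous f.symm)
    (hZm : ∀ T : Subgroup G, IsClosed (T : Set G) →
      IsTopologicalBasis {s : Set T | IsClopen s} → MetrizableSpace T → DiscreteTopology T) :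
    ∀ T : Subgroup G, IsClosed (T : Set G) →
      IsTopologicalBasis {s : Set T | IsClopen s} → DiscreteTopology T :=
  H71.Lie.final_Z hpseudo hminimal hZm

end Pool.Agent.Results.MP_dc204c_gt.ZmZ
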